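import Mathlib
import Pool.Agent.N893.RK.Greedy
import Pool.Agent.N893.RK.Rankin
import Pool.Agent.N893.QA.Fin

set_option autoImplicit false
set_option maxHeartbeats 4000000

/-! # Record gaps for arbitrary multiples -/

namespace Pool.Agent.N893.MU

open Finset Filter Pool.Agent.H318R2.Cr Pool.Agent.H398R2.RK Pool.Agent.N893.RK Pool.Agent.N893.QA

open scoped Classical

/-- Rankin's classes: `0` for the tiny and the large primes, greedy classes for the others. The values are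
`n * x`, `x ∈ h n`, `n ≤ L`. -/
theorem survivors_mult : ∃ C : ℝ, 0 < C ∧ ∃ y₀ : ℝ, ∀ y : ℝ, y₀ ≤ y → ∀ L : ℕ, y ≤ L →
    (L : ℝ) ≤ y * (Real.log y) ^ 4 → ∀ (M : ℕ) (h : ℕ → Finset ℤ), (∀ n, (h n).card ≤ M) →
    ∃ b : ℕ → ℕ,
      ((((Finset.Icc 1 L).sigma h).filter (fun k =>
        ∀ p : ℕ, p.Prime → (p : ℝ) ≤ y → ¬ (p : ℤ) ∣ (b p : ℤ) + (k.1 : ℤ) * k.2)).card : ℝ) ≤
      C * M * L * (Real.log (Real.log y)) ^ 2 /
        ((Real.log y) ^ 2 * Real.log (Real.log (Real.log y))) := by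
  obtain ⟨C, hC, y₀, hy₀2, hR⟩ := Pool.Agent.N893.RK.rankin 5 (by norm_num)
  obtain ⟨t₀, hev⟩ := ev_exp 5 1 one_pos
  refine ⟨11 * C, by positivity, max y₀ (Real.exp (Real.exp t₀)), fun y hy L hyL hLy M h hM => ?_⟩
  obtain ⟨S, hS, hprod, hsm, hdich⟩ := hR y ((le_max_left _ _).trans hy)
  have hy' := (le_max_right _ _).trans hy
  have hy0 : 0 < y := (Real.exp_pos _).trans_le hy'
  have hL1' : Real.exp t₀ ≤ Real.log y := by
    rw [← Real.log_exp (Real.exp t₀)]; exact Real.log_le_log (Real.exp_pos _) hy'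
  have hly : 0 < Real.log y := (Real.exp_pos _).trans_le hL1'
  set t := Real.log (Real.log y) with ht
  have htt : t₀ ≤ t := by
    rw [← Real.log_exp t₀]; exact Real.log_le_log (Real.exp_pos _) hL1'
  obtain ⟨h1, h2, h5, _, h4, _⟩ := hev t htt
  have hLe : Real.log y = Real.exp t := by rw [ht, Real.exp_log hly]
  have hly100 : 100 ≤ Real.log y := by rw [hLe]; exact h4
  have hy2 : 2 ≤ y := hy₀2.trans ((le_max_left _ _).trans hy)
  have hL0 : (0 : ℝ) < L := by linarith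
  have hL2 : 2 ≤ L := by
    have : (2 : ℝ) ≤ L := by linarith
    exact_mod_cast this
  -- R
  set R := (Icc 1 L).filter (fun n => ∀ p : ℕ, p.Prime → (p : ℝ) ≤ y → p ∉ S → ¬ p ∣ n) with hRdef
  have hSprime : ∀ p ∈ S, p.Prime := fun p hp => (hS p hp).1
  obtain ⟨s, _, hsc⟩ := greedy_abs S (fun (p c : ℕ) (k : (_ : ℕ) × ℤ) => (p : ℤ) ∣ (c : ℤ) + (k.1 : ℤ) * k.2)
    (fun p => p) (fun p _ => 1 - 1 / (p : ℝ)) (fun p hp => (hSprime p hp).pos)
    (fun p hp _ => (one_sub_inv_pos (hSprime p hp)).le) (R.sigma h) (by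
      intro p hp k _
      have hpp := hSprime p hp
      have hp0 : (p : ℝ) ≠ 0 := by exact_mod_cast hpp.ne_zero
      have hpz : (0 : ℤ) < p := by exact_mod_cast hpp.pos
      have e1 : (1 - 1 / (p : ℝ)) * p = ((p - 1 : ℕ) : ℝ) := by
        rw [Nat.cast_sub hpp.one_lt.le]; field_simp; simp
      rw [e1]
      have h6 : (range p).filter (fun c : ℕ => ¬ (p : ℤ) ∣ (c : ℤ) + (k.1 : ℤ) * k.2) ⊆
          (range p).erase ((-((k.1 : ℤ) * k.2)) % p).toNat := by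
        intro c hc
        rw [mem_filter] at hc
        rw [mem_erase]
        refine ⟨?_, hc.1⟩
        intro h7
        apply hc.2
        have h8 : (c : ℤ) = (-((k.1 : ℤ) * k.2)) % p := by
          rw [h7, Int.toNat_of_nonneg (Int.emod_nonneg _ hpz.ne')]
        rw [h8, Int.emod_def]
        exact ⟨-((-((k.1 : ℤ) * k.2)) / p), by ring⟩
      have h7 : ((-((k.1 : ℤ) * k.2)) % p).toNat ∈ range p := by
        rw [mem_range]
        have := Int.emod_lt_of_pos (-((k.1 : ℤ) * k.2)) hpz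
        have := Int.emod_nonneg (-((k.1 : ℤ) * k.2)) hpz.ne'
        omega
      have h8 := card_le_card h6
      rw [card_erase_of_mem h7, card_range] at h8
      have h9 : ((((range p).filter (fun c : ℕ => ¬ (p : ℤ) ∣ (c : ℤ) + (k.1 : ℤ) * k.2)).card : ℕ) : ℝ) ≤
        ((p - 1 : ℕ) : ℝ) := by exact_mod_cast h8
      convert h9)
  have hsc' : (((R.sigma h).filter (fun k => ∀ p ∈ S, ¬ (p : ℤ) ∣ (s p : ℤ) + (k.1 : ℤ) * k.2)).card : ℝ) ≤
      ∑ k ∈ R.sigma h, ∏ p ∈ S, (1 - 1 / (p : ℝ)) := by convert hsc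
  refine ⟨fun p => if p ∈ S then s p else 0, ?_⟩
  have hsub1 : ((Finset.Icc 1 L).sigma h).filter (fun k =>
        ∀ p : ℕ, p.Prime → (p : ℝ) ≤ y → ¬ (p : ℤ) ∣ (((if p ∈ S then s p else 0) : ℕ) : ℤ) + (k.1 : ℤ) * k.2) ⊆
      (R.sigma h).filter (fun k => ∀ p ∈ S, ¬ (p : ℤ) ∣ (s p : ℤ) + (k.1 : ℤ) * k.2) := by
    intro k hk
    rw [mem_filter, mem_sigma] at hk
    obtain ⟨⟨hk1, hk2⟩, hk3⟩ := hk
    rw [mem_filter, mem_sigma, hRdef, mem_filter]
    refine ⟨⟨⟨hk1, fun p hp hpy hpS hd => ?_⟩, hk2⟩, fun p hpS => ?_⟩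
    · apply hk3 p hp hpy
      rw [if_neg hpS]
      have : (p : ℤ) ∣ (k.1 : ℤ) := Int.natCast_dvd_natCast.2 hd
      push_cast
      rw [zero_add]
      exact this.mul_right _
    · have := hk3 p (hSprime p hpS) (hS p hpS).2.2
      rwa [if_pos hpS] at this
  refine (Nat.cast_le.2 (card_le_card hsub1)).trans (hsc'.trans ?_)
  -- the size of R
  have h9 := primes_le L hL2
  have h9a := hsm L hyL
  obtain ⟨A1, hA1⟩ : ∃ A1 : Finset ℕ, A1 = (Icc 1 L).filter (Smo (2 * ((5 : ℕ) + 2)) y) := ⟨_, rfl⟩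
  obtain ⟨A2, hA2⟩ : ∃ A2 : Finset ℕ, A2 = (Icc 1 L).filter Nat.Prime := ⟨_, rfl⟩
  have h9' : (A2.card : ℝ) ≤ 10 * (L : ℝ) / Real.log L := by rw [hA2]; convert h9
  have h9a' : (A1.card : ℝ) ≤ (L : ℝ) / (Real.log y) ^ 5 := by rw [hA1]; convert h9a
  have hRsub : R ⊆ A1 ∪ A2 := by
    intro n hn
    rw [hRdef, mem_filter] at hn
    obtain ⟨hn1, hn2⟩ := hn
    rw [hA1, hA2, mem_union, mem_filter, mem_filter]
    have hn1' := mem_Icc.1 hn1
    have := hdich n hn1'.1 (by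
      have h6 : (n : ℝ) ≤ L := by exact_mod_cast hn1'.2
      refine h6.trans (hLy.trans ?_)
      have : Real.log y ^ 4 ≤ Real.log y ^ 5 := pow_le_pow_right₀ (by linarith) (by norm_num)
      gcongr) (fun p hp hd => by
        by_contra hcon
        push Not at hcon
        exact hn2 p hp hcon.1 hcon.2 hd)
    rcases this with h6 | h6
    · exact Or.inl ⟨hn1, h6⟩
    · exact Or.inr ⟨hn1, h6⟩
  have hRcard : (R.card : ℝ) ≤ 11 * L / Real.log y := by
    have h7 : R.card ≤ A1.card + A2.card := (card_le_card hRsub).trans (card_union_le _ _)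
    have h8 : (R.card : ℝ) ≤ (A1.card : ℝ) + (A2.card : ℝ) := by exact_mod_cast h7
    have h10 : 10 * (L : ℝ) / Real.log L ≤ 10 * L / Real.log y := by
      apply div_le_div_of_nonneg_left (by positivity) hly
      exact Real.log_le_log hy0 hyL
    have h11 : (L : ℝ) / (Real.log y) ^ 5 ≤ L / Real.log y := by
      apply div_le_div_of_nonneg_left hL0.le hly
      calc Real.log y = Real.log y ^ 1 := (pow_one _).symm
        _ ≤ _ := pow_le_pow_right₀ (by linarith) (by norm_num)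
    have h12 : 11 * (L : ℝ) / Real.log y = 10 * L / Real.log y + L / Real.log y := by ring
    linarith
  have hP0 : 0 ≤ ∏ p ∈ S, (1 - 1 / (p : ℝ)) :=
    prod_nonneg fun p hp => (one_sub_inv_pos (hSprime p hp)).le
  have hcardsig : ((R.sigma h).card : ℝ) ≤ R.card * M := by
    rw [card_sigma]
    push_cast
    calc ∑ a ∈ R, ((h a).card : ℝ) ≤ ∑ a ∈ R, (M : ℝ) := sum_le_sum fun a _ => by exact_mod_cast hM a
      _ = R.card * M := by rw [sum_const, nsmul_eq_mul]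
  have hM0 : (0 : ℝ) ≤ M := Nat.cast_nonneg _
  have hlt0 : 0 < Real.log t := by linarith
  have ht0 : 0 < t := by linarith
  calc ∑ k ∈ R.sigma h, ∏ p ∈ S, (1 - 1 / (p : ℝ)) = (R.sigma h).card * ∏ p ∈ S, (1 - 1 / (p : ℝ)) := by
        rw [sum_const, nsmul_eq_mul]
    _ ≤ (R.card * M) * ∏ p ∈ S, (1 - 1 / (p : ℝ)) := by gcongr
    _ ≤ ((11 * L / Real.log y) * M) * (C * (t ^ 2 / (Real.log y * Real.log t))) := by gcongr
    _ = _ := by
        field_simp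
        try ring

theorem ev_sq (K : ℝ) : ∀ᶠ x : ℝ in atTop, K * (Real.log x) ^ 4 ≤ x := ev_pow4 K

theorem main (D : ℕ) : ∃ c : ℝ, 0 < c ∧ ∃ X₀ : ℝ, ∀ X : ℝ, X₀ ≤ X →
    ∀ M : ℕ, 1 ≤ M → (M : ℝ) ≤ Real.log (Real.log X) → ∀ h : ℕ → Finset ℤ, (∀ n, (h n).card ≤ M) →
    (∀ n, ∀ x ∈ h n, |(n : ℝ) * (x : ℝ)| ≤ Real.exp ((Real.log X) ^ D)) → ∀ z : ℤ,
    ∃ m : ℤ, (z : ℝ) < m ∧ (m : ℝ) ≤ z + X ∧
      ∀ n : ℕ, 1 ≤ n → (M : ℝ) * n ≤ c * (Real.log X * (Real.log (Real.log X)) ^ 2 *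
          Real.log (Real.log (Real.log (Real.log X))) /
            (Real.log (Real.log (Real.log X))) ^ 2) →
        ∀ x ∈ h n, ¬ Prime (m + (n : ℤ) * x) := by
  obtain ⟨C, hC, y₀, hsurv⟩ := survivors_mult
  obtain ⟨c₀, hc₀, X₁, hass⟩ := Pool.Agent.H361R2.PA.assembleM D
  obtain ⟨x₀, hhalf⟩ := ev_log_half
  set c₂ : ℝ := min 1 (5 * c₀ / C) with hc₂
  have hc₂0 : 0 < c₂ := lt_min one_pos (by positivity)
  have hc₂1 : c₂ ≤ 1 := min_le_left _ _
  have hc₂C : C * c₂ ≤ 5 * c₀ := by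
    have : c₂ ≤ 5 * c₀ / C := min_le_right _ _
    rwa [le_div_iff₀ hC, mul_comm] at this
  -- thresholds
  obtain ⟨x₁, hx₁⟩ := eventually_atTop.1 (ev_pow4 40)
  obtain ⟨x₂, hx₂⟩ := eventually_atTop.1 (ev_pow4 (16 / c₂))
  have hlog1 := Real.tendsto_log_atTop
  have hl2 := hlog1.comp hlog1
  have hl3 := hlog1.comp hl2
  have hl4 := hlog1.comp hl3
  have hall := (((((hlog1.eventually_ge_atTop (max (max (20 * x₁) (20 * y₀)) (max x₀ (max (20 * (1 / (5 * c₀))) 20)))).and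
    (hl2.eventually_ge_atTop (max (max (2 * x₂) x₀) 20))).and
    (hl3.eventually_ge_atTop (max x₀ 20))).and (hl4.eventually_ge_atTop 20)).and
    (eventually_ge_atTop (max X₁ 1000)))
  obtain ⟨X₀, hX₀⟩ := eventually_atTop.1 hall
  refine ⟨c₂ / 160, by positivity, X₀, fun X hX M hM1 hMX h hh hbd z => ?_⟩
  obtain ⟨⟨⟨⟨g1, g2⟩, g3⟩, g4⟩, g5⟩ := hX₀ X hX
  simp only [Function.comp_apply] at g2 g3 g4
  set L1 := Real.log X with hL1
  set L2 := Real.log L1 with hL2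
  set L3 := Real.log L2 with hL3
  set L4 := Real.log L3 with hL4
  simp only [max_le_iff, ge_iff_le] at g1 g2 g3 g5
  obtain ⟨⟨g1a, g1b⟩, g1c, g1d, g1e⟩ := g1
  obtain ⟨⟨g2a, g2b⟩, g2c⟩ := g2
  obtain ⟨g3a, g3b⟩ := g3
  obtain ⟨g5a, g5b⟩ := g5
  set y := L1 / 10 with hy
  have hyX' : L1 = 10 * y := by rw [hy]; ring
  have hy1 : L1 / 20 ≤ y := by rw [hy]; linarith
  have hy2 : y ≤ L1 := by rw [hy]; linarith
  have hy0 : 0 < y := by linarith
  have hyx1 : x₁ ≤ y := by linarith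
  have hyy0 : y₀ ≤ y := by linarith
  have hyc : 1 / (5 * c₀) ≤ y := by linarith
  have hy_1 : 1 ≤ y := by linarith
  set ly := Real.log y with hly
  have hly1 : L2 / 2 ≤ ly := (hhalf L1 g1c).2 y hy1
  have hly2 : ly ≤ L2 := Real.log_le_log hy0 hy2
  have hly0 : 0 < ly := by linarith
  set lly := Real.log ly with hlly
  have hlly1 : L3 / 2 ≤ lly := (hhalf L2 g2b).2 ly (by linarith)
  have hlly2 : lly ≤ L3 := Real.log_le_log hly0 hly2
  have hlly0 : 0 < lly := by linarith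
  set llly := Real.log lly with hllly
  have hllly1 : L4 / 2 ≤ llly := (hhalf L3 g3a).2 lly (by linarith)
  have hllly2 : llly ≤ L4 := Real.log_le_log hlly0 hlly2
  have hllly0 : 0 < llly := by linarith
  have hllly_le : llly ≤ lly := (Real.log_le_sub_one_of_pos hlly0).trans (by linarith)
  have hP1 : 40 * ly ^ 4 ≤ y := hx₁ y hyx1
  have hP2 : 16 / c₂ * lly ^ 4 ≤ ly := hx₂ ly (by linarith)
  have hM0 : (1 : ℝ) ≤ M := by exact_mod_cast hM1
  have hM2 : (M : ℝ) ≤ 2 * ly := hMX.trans (by linarith)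
  set W : ℝ := c₂ * y * ly ^ 2 * llly / (lly ^ 2 * M) with hW
  have hW0 : 0 < W := by positivity
  set L : ℕ := ⌊W⌋₊ with hL
  have hLW : (L : ℝ) ≤ W := Nat.floor_le hW0.le
  have hlly1' : 1 ≤ lly := by linarith
  -- (a) y ≤ L
  have hWy : 2 * y ≤ W := by
    rw [hW, le_div_iff₀ (by positivity)]
    have e1 : 16 * lly ^ 4 ≤ c₂ * ly := by
      have := mul_le_mul_of_nonneg_left hP2 hc₂0.le
      calc 16 * lly ^ 4 = c₂ * (16 / c₂ * lly ^ 4) := by field_simp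
        _ ≤ _ := this
    have e3 : lly ^ 2 ≤ lly ^ 4 := pow_le_pow_right₀ hlly1' (by norm_num)
    have e4 : 16 * lly ^ 2 ≤ c₂ * ly := by linarith
    have e5 : (1 : ℝ) ≤ llly := by linarith
    calc 2 * y * (lly ^ 2 * M) ≤ 2 * y * (lly ^ 2 * (2 * ly)) := by gcongr
      _ = y * ly * (4 * lly ^ 2) := by ring
      _ ≤ y * ly * (c₂ * ly) := by
        have : 4 * lly ^ 2 ≤ c₂ * ly := by
          have : 0 ≤ lly ^ 2 := by positivity
          linarith
        gcongr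
      _ = c₂ * y * ly ^ 2 * 1 := by ring
      _ ≤ c₂ * y * ly ^ 2 * llly := by gcongr
  have hyL : y ≤ L := by
    have := Nat.lt_floor_add_one W
    rw [← hL] at this
    linarith
  -- (b) M * L ≤ y * ly ^ 2
  have hMW : (M : ℝ) * W ≤ y * ly ^ 2 := by
    have e1 : (M : ℝ) * W = c₂ * y * ly ^ 2 * (llly / lly ^ 2) := by
      rw [hW]; field_simp
    rw [e1]
    have e2 : llly / lly ^ 2 ≤ 1 := by
      rw [div_le_one (by positivity)]
      calc llly ≤ lly := hllly_le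
        _ = lly ^ 1 := (pow_one _).symm
        _ ≤ lly ^ 2 := pow_le_pow_right₀ hlly1' (by norm_num)
    calc c₂ * y * ly ^ 2 * (llly / lly ^ 2) ≤ 1 * y * ly ^ 2 * 1 := by gcongr
      _ = _ := by ring
  have hML : (M : ℝ) * L ≤ y * ly ^ 2 := (mul_le_mul_of_nonneg_left hLW (by linarith)).trans hMW
  have hly24 : ly ^ 2 ≤ ly ^ 4 := pow_le_pow_right₀ (by linarith) (by norm_num)
  have hL_le : (L : ℝ) ≤ y * ly ^ 4 := by
    have hLn : (0 : ℝ) ≤ L := Nat.cast_nonneg _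
    have : y * ly ^ 2 ≤ y * ly ^ 4 := by gcongr
    nlinarith
  obtain ⟨b, hb⟩ := hsurv y hyy0 L hyL hL_le M h hh
  set A : Finset ℤ := ((Finset.Icc 1 L).sigma h).image
    (fun k : (_ : ℕ) × ℤ => (k.1 : ℤ) * k.2) with hA
  have hAcard : (A.card : ℝ) ≤ L1 ^ 2 := by
    have h2 : (A.card : ℝ) ≤ (L : ℝ) * M := by
      have h3 : (A.card : ℝ) ≤ ((((Finset.Icc 1 L).sigma h).card : ℕ) : ℝ) := by
        exact_mod_cast card_image_le
      refine h3.trans ?_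
      rw [card_sigma]
      push_cast
      calc ∑ a ∈ Finset.Icc 1 L, ((h a).card : ℝ) ≤ ∑ a ∈ Finset.Icc 1 L, (M : ℝ) :=
            sum_le_sum fun a _ => by exact_mod_cast hh a
        _ = L * M := by rw [sum_const, nsmul_eq_mul, Nat.card_Icc]; simp
    have h3 : ly ^ 2 ≤ y := by
      have : 0 ≤ ly ^ 4 := by positivity
      linarith
    rw [hyX']
    calc (A.card : ℝ) ≤ (L : ℝ) * M := h2
      _ = M * L := by ring
      _ ≤ y * ly ^ 2 := hML
      _ ≤ y * y := by gcongr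
      _ ≤ (10 * y) ^ 2 := by nlinarith
  have hAbd : ∀ a ∈ A, |(a : ℝ)| ≤ Real.exp (L1 ^ D) := by
    intro a ha
    rw [hA, mem_image] at ha
    obtain ⟨k, hk, rfl⟩ := ha
    rw [mem_sigma] at hk
    have := hbd k.1 k.2 hk.2
    push_cast
    exact this
  have hAS : (((A.filter (fun a => ∀ p : ℕ, p.Prime → (p : ℝ) ≤ L1 / 10 →
      ¬ (p : ℤ) ∣ ((1 : ℕ) : ℤ) * (b p : ℤ) + a)).card : ℕ) : ℝ) ≤ c₀ * L1 := by
    have hsub : A.filter (fun a => ∀ p : ℕ, p.Prime → (p : ℝ) ≤ L1 / 10 →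
      ¬ (p : ℤ) ∣ ((1 : ℕ) : ℤ) * (b p : ℤ) + a) ⊆
        (((Finset.Icc 1 L).sigma h).filter (fun k =>
        ∀ p : ℕ, p.Prime → (p : ℝ) ≤ y → ¬ (p : ℤ) ∣ (b p : ℤ) + (k.1 : ℤ) * k.2)).image
          (fun k : (_ : ℕ) × ℤ => (k.1 : ℤ) * k.2) := by
      intro a ha
      rw [mem_filter, hA, mem_image] at ha
      obtain ⟨⟨k, hk, rfl⟩, ha⟩ := ha
      rw [mem_image]
      refine ⟨k, mem_filter.2 ⟨hk, fun p hp hpy => ?_⟩, rfl⟩
      have := ha p hp hpy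
      simpa using this
    have h2 : ((A.filter (fun a => ∀ p : ℕ, p.Prime → (p : ℝ) ≤ L1 / 10 →
      ¬ (p : ℤ) ∣ ((1 : ℕ) : ℤ) * (b p : ℤ) + a)).card : ℝ) ≤
        (((((Finset.Icc 1 L).sigma h).filter (fun k =>
        ∀ p : ℕ, p.Prime → (p : ℝ) ≤ y → ¬ (p : ℤ) ∣ (b p : ℤ) + (k.1 : ℤ) * k.2)).card : ℕ) : ℝ) := by
      exact_mod_cast (card_le_card hsub).trans card_image_le
    refine h2.trans (hb.trans ?_)
    have h3 : C * M * L * lly ^ 2 / (ly ^ 2 * llly) ≤ C * c₂ * y := by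
      calc C * M * L * lly ^ 2 / (ly ^ 2 * llly) ≤ C * M * W * lly ^ 2 / (ly ^ 2 * llly) := by
            gcongr
        _ = C * c₂ * y := by
            rw [hW]
            have : (M : ℝ) ≠ 0 := by linarith
            field_simp
    have h4 : C * c₂ * y ≤ 5 * c₀ * y := by gcongr
    refine h3.trans (h4.trans ?_)
    rw [hyX']
    nlinarith
  obtain ⟨n, hn1, hn2, _, hn4⟩ := hass X g5a 1 le_rfl (by
      rw [Nat.cast_one, Real.log_one]
      positivity) A hAcard hAbd b hAS z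
  refine ⟨n, ?_, hn2, ?_⟩
  · linarith
  · intro k hk1 hk2 x hx hpr
    have hkL : k ≤ L := by
      rw [hL]
      apply Nat.le_floor
      have h2 : c₂ / 160 * (L1 * L2 ^ 2 * L4 / L3 ^ 2) ≤ M * W := by
        have e1 : (M : ℝ) * W = c₂ * (y * ly ^ 2 * llly / lly ^ 2) := by
          rw [hW]; field_simp
        rw [e1]
        have e2 : c₂ / 160 * (L1 * L2 ^ 2 * L4 / L3 ^ 2) =
            c₂ * ((L1 / 20) * (L2 / 2) ^ 2 * (L4 / 2) / L3 ^ 2) := by ring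
        rw [e2]
        have hL2' : 0 ≤ L2 / 2 := by linarith
        have hL4' : 0 ≤ L4 / 2 := by linarith
        have hL1'' : 0 ≤ L1 / 20 := by linarith
        gcongr
      have h3 : (M : ℝ) * k ≤ M * W := hk2.trans h2
      exact le_of_mul_le_mul_left h3 (by linarith)
    have hmem : (k : ℤ) * x ∈ A := by
      rw [hA, mem_image]
      exact ⟨⟨k, x⟩, mem_sigma.2 ⟨mem_Icc.2 ⟨hk1, hkL⟩, hx⟩, rfl⟩
    apply hn4 _ hmem
    have e2 : ((1 : ℕ) : ℤ) * n + (k : ℤ) * x = n + (k : ℤ) * x := by push_cast; ring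
    rw [e2]
    exact hpr

end Pool.Agent.N893.MU
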